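import Pool.Agent.Run7.h700.KC.Stm

/-!
# Project KC, piece ANN
-/

set_option autoImplicit false

namespace Pool.Agent.Run7.h642.KC

open Metric Set
open scoped ENNReal Real
open Pool.Agent.Run7.h700.KC

theorem t_ANN : S_ANN := by
  intro hsp hch r s t hr hrs hst ht
  have hs : 0 < s := hr.trans hrs
  have ht0 : 0 < t := hs.trans_le hst
  have hlrs : Real.log r < Real.log s := Real.log_lt_log hr hrs
  have hlst : Real.log s ≤ Real.log t := Real.log_le_log hs hst
  have hlt : Real.log t < 0 := Real.log_neg ht0 ht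
  set R : ℝ := min (Real.log s - Real.log r) (-Real.log t) with hR
  have hR0 : 0 < R := lt_min (by linarith) (by linarith)
  obtain ⟨N, hN⟩ := exists_nat_ge ((Real.log t - Real.log s + 2 * π) / (R / 4))
  have hN' : Real.log t - Real.log s + 2 * π ≤ N * (R / 4) :=
    (div_le_iff₀ (by positivity)).1 hN
  refine ⟨(1 / 3) ^ N, (5 / 3) ^ N, by positivity, by positivity, ?_⟩
  intro ω hω hω1 a z hsa hat hsz hzt
  have ha0 : a ≠ 0 := by
    intro h; rw [h, norm_zero] at hsa; linarith
  have hz0 : z ≠ 0 := by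
    intro h; rw [h, norm_zero] at hsz; linarith
  set U : Set ℂ := {w | Real.log r < w.re ∧ w.re < 0} with hU
  set K : Set ℂ := {w | Real.log s ≤ w.re ∧ w.re ≤ Real.log t} with hK
  have hmap : ∀ w ∈ U, r < ‖Complex.exp w‖ ∧ ‖Complex.exp w‖ < 1 := by
    intro w hw
    rw [Complex.norm_exp]
    refine ⟨?_, Real.exp_lt_one_iff.2 hw.2⟩
    calc r = Real.exp (Real.log r) := (Real.exp_log hr).symm
      _ < Real.exp w.re := Real.exp_lt_exp.2 hw.1
  have hKconv : Convex ℝ K :=
    (convex_halfSpace_re_ge (Real.log s)).inter (convex_halfSpace_re_le (Real.log t))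
  have hball : ∀ b ∈ K, ball b R ⊆ U := by
    intro b hb w hw
    have h1 : |w.re - b.re| < R := by
      have := Complex.abs_re_le_norm (w - b)
      rw [Complex.sub_re] at this
      rw [mem_ball, dist_eq_norm] at hw
      exact this.trans_lt hw
    have h2 := abs_lt.1 h1
    have h3 : R ≤ Real.log s - Real.log r := min_le_left _ _
    have h4 : R ≤ -Real.log t := min_le_right _ _
    have hb1 : Real.log s ≤ b.re := hb.1
    have hb2 : b.re ≤ Real.log t := hb.2
    exact ⟨by linarith [h2.1], by linarith [h2.2]⟩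
  have hdiff : DifferentiableOn ℂ (fun w => ω (Complex.exp w)) U :=
    hω.comp Complex.differentiable_exp.differentiableOn (fun w hw => hmap w hw)
  have hbd : ∀ w ∈ U, ‖ω (Complex.exp w)‖ ≤ 1 := fun w hw => hω1 _ (hmap w hw).1 (hmap w hw).2
  have hmemK : ∀ b : ℂ, s ≤ ‖b‖ → ‖b‖ ≤ t → Complex.log b ∈ K := by
    intro b hsb hbt
    have hb0 : 0 < ‖b‖ := hs.trans_le hsb
    refine ⟨?_, ?_⟩
    · rw [Complex.log_re]; exact Real.log_le_log hs hsb
    · rw [Complex.log_re]; exact Real.log_le_log hb0 hbt
  have haK := hmemK a hsa hat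
  have hzK := hmemK z hsz hzt
  have hdist : dist (Complex.log z) (Complex.log a) ≤ N * (R / 4) := by
    rw [dist_eq_norm]
    refine (Complex.norm_le_abs_re_add_abs_im _).trans (le_trans ?_ hN')
    rw [Complex.sub_re, Complex.sub_im]
    have h1 : |(Complex.log z).re - (Complex.log a).re| ≤ Real.log t - Real.log s := by
      have e1 : Real.log s ≤ (Complex.log z).re := hzK.1
      have e2 : (Complex.log z).re ≤ Real.log t := hzK.2
      have e3 : Real.log s ≤ (Complex.log a).re := haK.1
      have e4 : (Complex.log a).re ≤ Real.log t := haK.2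
      rw [abs_le]; constructor <;> linarith
    have h2 : |(Complex.log z).im - (Complex.log a).im| ≤ 2 * π := by
      have e1 := Complex.neg_pi_lt_log_im z
      have e2 := Complex.log_im_le_pi z
      have e3 := Complex.neg_pi_lt_log_im a
      have e4 := Complex.log_im_le_pi a
      rw [abs_le]; constructor <;> linarith
    linarith
  have key := hch hsp (fun w => ω (Complex.exp w)) U K R hR0 hKconv hball hdiff hbd N
    (Complex.log a) haK (Complex.log z) hzK hdist
  simp only [Complex.exp_log ha0, Complex.exp_log hz0] at key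
  refine ⟨key.1, key.2.trans ?_⟩
  have h1 : 0 ≤ 1 - ‖ω a‖ := by
    have := hω1 a (hrs.trans_le hsa) (hat.trans_lt ht)
    linarith
  have h2 : ((5 / 3 : ℝ) ^ N - 1) * (1 - ‖ω a‖) ≤ (5 / 3) ^ N * (1 - ‖ω a‖) :=
    mul_le_mul_of_nonneg_right (by linarith) h1
  exact h2

end Pool.Agent.Run7.h642.KC
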